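import Pool.Agent.TH345.CC.Conv
import Pool.Agent.TH345.CC.Germ
import Pool.Agent.TH345.CC.Comp2
import Pool.Agent.TH345.CC.Dich
import Pool.Agent.TH345.CC.Aff2
import Pool.Agent.TH345.CC.Koe
import Pool.Agent.TH345.CC.Fix
import Pool.Agent.TH345.CC.Lor
import Pool.Agent.TH345.CC.Ster
import Pool.Agent.TH345.CC.Fin
import Pool.Agent.TH345.CC.Attr
import Pool.Agent.TH345.CC.Moeb
import Pool.Agent.TH345.CC.Glob2
import Pool.Agent.TH345.CC.Lox

/-!
# The relative Cannon conjecture is a local and finite problem of conformal geometry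

The definitions `Action`, `IsConvergence`, `GeomFinite`, `HypAct`, `Sph`, `IsEquivariant`, `IsProper`
and `IsLatticeAct` are those of `Pool/Agent/TH631/RC/Defs.lean` and `Pool/Agent/TH631/RC/Stmt.lean`.

Let `(G, H_1, ..., H_k)` be relatively hyperbolic with virtually `ℤ ^ 2` groups `H_i` (the case
`k = 0`, hyperbolic groups, is included). The action of `G` on the Bowditch boundary `X` is a
convergence action with dense orbits for which every point is conical or bounded parabolic
(Bowditch).

Let `U ≠ X` be a nonempty open subset of `X`, as small as one likes. There is a finite subset `S` of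
`G` such that the following are equivalent: (1) `U` has a chart to the plane in which the elements of
`S` act conformally: near every point `x` of `U` with `g x ∈ U` the map `g` is holomorphic or
antiholomorphic; (2) `X` is homeomorphic to the sphere at infinity of `H ^ 3`, by a homeomorphism
which conjugates the action of `G` to an action by isometries. The latter is then that of a lattice
in `Isom(H ^ 3)`.
-/

set_option autoImplicit false

open Filter Topology Set Pool.Agent.TH631.RC

namespace Pool.Agent.Results.MP_04c03c_gt.ConformalCharts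

/-- `φ` is a homeomorphism of `U` onto an open subset of the plane. -/
def IsChart {X : Type} [TopologicalSpace X] (U : Set X) (φ : X → ℂ) : Prop :=
  ContinuousOn φ U ∧ InjOn φ U ∧ ∀ W ⊆ U, IsOpen W → IsOpen (φ '' W)

/-- In the chart `φ` the element `g` is holomorphic or antiholomorphic near every point `x` of `U`
with `g x ∈ U`. -/
def IsConformal {G : Type} [Group G] {X : Type} [TopologicalSpace X] (α : Action G X) (U : Set X)
    (φ : X → ℂ) (g : G) : Prop :=
  ∀ x ∈ U, α.map g x ∈ U → ∃ F : ℂ → ℂ, AnalyticAt ℂ F (φ x) ∧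
    ((∀ᶠ y in 𝓝 x, φ (α.map g y) = F (φ y)) ∨
      ∀ᶠ y in 𝓝 x, φ (α.map g y) = (starRingEnd ℂ) (F (φ y)))

/-- Let the finitely generated group `G` act on the compact metric space `X` as a convergence group
with dense orbits. For every nonempty open subset `U ≠ X` of `X` there is a finite subset `S` of `G`
such that the elements of `S` are conformal in some chart of `U` if and only if there are an action
`ρ` of `G` by isometries of `H ^ 3` and an equivariant homeomorphism `h` of the sphere at infinity
onto `X`. For any such `ρ` and `h`, the action `ρ` is properly discontinuous, and if every point of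
`X` is conical or bounded parabolic, with a peripheral group that is virtually abelian of rank at
least two, then `ρ` is the action of a lattice. -/
theorem result {G : Type} [Group G] (hG : Group.FG G) {X : Type} [MetricSpace X] [CompactSpace X]
    (α : Action G X) (hα : IsConvergence α) (hmin : ∀ x, Dense (Set.range fun g => α.map g x)) :
    (∀ U : Set X, IsOpen U → U.Nonempty → U ≠ univ → ∃ S : Finset G,
      (∃ φ : X → ℂ, IsChart U φ ∧ ∀ g ∈ S, IsConformal α U φ g) ↔
      ∃ (ρ : HypAct G 2) (h : Sph 2 → X), IsEquivariant ρ α h ∧ IsHomeomorph h) ∧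
    ∀ (ρ : HypAct G 2) (h : Sph 2 → X), IsEquivariant ρ α h → IsHomeomorph h →
      IsProper ρ ∧ (GeomFinite α → IsLatticeAct ρ) := by
  have hc := Pool.TH345.CC.Comp2.comp
  have hd := Pool.TH345.CC.dich
  refine ⟨fun U hU hne hU1 => ?_, fun ρ h he hh =>
    Pool.TH345.CC.lattice_of α hα ρ h he hh⟩
  obtain ⟨S, hS⟩ := Pool.TH345.CC.fin hc G X α U hG hmin hU hne
  refine ⟨S, ?_, ?_⟩
  · rintro ⟨φ, hφ, hconf⟩
    have hch : Pool.TH345.CC.Chart U φ := ⟨hU, hne, hφ.1, hφ.2.1, hφ.2.2⟩
    have hret : Pool.TH345.CC.Returns α S U φ := by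
      intro g hg x hx hgx
      obtain ⟨F, hF, h | h⟩ := hconf g hg x hx hgx
      · exact ⟨F, Or.inl hF, h⟩
      · refine ⟨fun z => (starRingEnd ℂ) (F z), Or.inr ?_, h⟩
        simpa using hF
    obtain ⟨ρ, h, h1, h2, -⟩ := Pool.TH345.CC.whole Pool.TH345.CC.ster Pool.TH345.CC.lor
      (Pool.TH345.CC.moeb Pool.TH345.CC.Aff2.affine hd hc)
      (Pool.TH345.CC.Glob2.global Pool.TH345.CC.koenigs hc)
      (Pool.TH345.CC.lox Pool.TH345.CC.attr Pool.TH345.CC.fix hd hc) α hα hmin hch
      (hS φ hch hret)
    exact ⟨ρ, h, h1, h2⟩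
  · rintro ⟨ρ, h, h1, h2⟩
    have hgerm : Pool.TH345.CC.S_germ := fun T w w2 h =>
      Pool.TH345.CC.germ hc Pool.TH345.CC.lor Pool.TH345.CC.ster T w w2 h
    obtain ⟨φ, hφ, hr⟩ := Pool.TH345.CC.converse Pool.TH345.CC.ster Pool.TH345.CC.lor hgerm α ρ h
      h1 h2 hU hne hU1
    refine ⟨φ, ⟨hφ.cont, hφ.inj, hφ.image⟩, fun g _ x hx hgx => ?_⟩
    obtain ⟨F, hF, hF'⟩ := hr g (mem_univ _) x hx hgx
    rcases hF with hF | hF
    · exact ⟨F, hF, Or.inl hF'⟩
    · refine ⟨fun z => (starRingEnd ℂ) (F z), hF, Or.inr ?_⟩
      filter_upwards [hF'] with y hy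
      rw [hy, Complex.conj_conj]

end Pool.Agent.Results.MP_04c03c_gt.ConformalCharts
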