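import Pool.Agent.TH631.RC.Stmt

/-!
# The relative Cannon conjecture: boundary actions that are factors of Moebius actions

The definitions used in the statement are in `Pool/Agent/TH631/RC/Defs.lean` and
`Pool/Agent/TH631/RC/Stmt.lean`.

Let `(G, H_1, ..., H_k)` be relatively hyperbolic with virtually `ℤ ^ 2` groups `H_i` (or virtually
`ℤ ^ r`, `r ≥ 2`). The action of `G` on the Bowditch boundary `X` is a convergence action for which
every point is conical or bounded parabolic, and the stabilisers of the bounded parabolic points are
the conjugates of the groups `H_i` (Bowditch).

Let `ρ : G → Isom(H^{n+1})`, `n ≥ 1`, be any homomorphism (it need not be discrete or faithful) and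
suppose that there is a nonconstant continuous `G`-equivariant map `h` from the sphere `S^n` at
infinity to `X`. Then `h` is a homeomorphism and `ρ(G)` is a lattice: `G` acts properly
discontinuously, so with finite kernel, and for every size of the horoballs the space `H^{n+1}` is
covered by the translates of a ball and of finitely many horoballs centred at cusps of full rank.
-/

set_option autoImplicit false

open Filter Topology Set Pool.Agent.TH631.RC

namespace Pool.Agent.Results.MP_04c03c_gt.FactorOfMoebiusAction

/-- Let `α` be a convergence action of the group `G` on the compact metric space `X` for which every
point is conical or bounded parabolic with a peripheral group that is virtually abelian of rank at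
least two. Let `ρ` be an action of `G` by isometries on hyperbolic space of dimension `n + 1 ≥ 2`,
and `h` a nonconstant continuous equivariant map from the sphere at infinity to `X`. Then `h` is a
homeomorphism, and the action `ρ` is that of a lattice. -/
theorem result (n : ℕ) (hn : 1 ≤ n) {G : Type} [Group G] {X : Type} [MetricSpace X]
    [CompactSpace X] (α : Action G X) (hα : IsConvergence α) (hgf : GeomFinite α)
    (ρ : HypAct G n) (h : Sph n → X) (hc : Continuous h) (hne : ∃ x y, h x ≠ h y)
    (he : IsEquivariant ρ α h) : IsHomeomorph h ∧ IsLatticeAct ρ :=
  main hn α hα hgf ρ h hc hne he

end Pool.Agent.Results.MP_04c03c_gt.FactorOfMoebiusAction
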