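import Pool.Agent.TH878.Cn.Chart

set_option autoImplicit false

/-!
# The relative Cannon conjecture is an infinitesimal question at one conical point

Let `G` act on `S^n`, `n ≥ 1`, as a convergence group, let `z` be ONE conical point, with conical
sequence `(g_k)`: `g_k z → a` and `g_k w → b ≠ a` for all `w ≠ z`. Let `φ` be a chart: a
homeomorphism of an open set `U`, as small as one likes, which contains `z`, onto an open subset of
the round sphere `S^n`. Suppose that in this chart the return maps `s g_k` to `U` are asymptotically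
Moebius at `z`: for every `s` and `ε > 0` there is a neighbourhood `V` of `z` such that for all large
`k` the map `s g_k` changes absolute cross-ratios of those points of `V` which it maps to `U` by a
factor at most `1 + ε`. Then `φ` extends to a homeomorphism `f` of `S^n` which conjugates the action
of `G` to a properly discontinuous action by isometries of `H^{n+1}`. If the given action is
geometrically finite (each point is conical, or its stabiliser acts cocompactly on the complement),
then `G` acts on `H^{n+1}` as a lattice: there are finitely many points `p`, none of them conical,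
with stabilisers which preserve the horoballs at `f p` and act cocompactly on `S^n` minus `p`, such
that every point of `H^{n+1}` has a translate in a fixed compact set or in one of the horoballs.

If `U` is the whole sphere it suffices to take `s` in a generating set.
-/

namespace Pool.Agent.Results.MP_04c03c_gt.OneConicalPoint

open Filter Topology Metric
open scoped RealInnerProductSpace

/-- The round sphere `S^n` in `ℝ^{n+1}`. -/
abbrev Sphere (n : ℕ) : Type := sphere (0 : EuclideanSpace ℝ (Fin (n + 1))) 1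

/-- The chordal distance. -/
noncomputable def chord {n : ℕ} (a b : Sphere n) : ℝ := dist a b

/-- Lorentz space `ℝ^{1,n+1}`. -/
abbrev Lorentz (n : ℕ) : Type := ℝ × EuclideanSpace ℝ (Fin (n + 1))

/-- The Lorentz form `t t' - ⟨v, v'⟩`. -/
noncomputable def form {n : ℕ} (p q : Lorentz n) : ℝ := p.1 * q.1 - ⟪p.2, q.2⟫

/-- The hyperboloid model of hyperbolic space `H^{n+1}`: time-like vectors of length one, in the
future. (The linear maps which preserve the Lorentz form and this set are its isometries.) -/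
def HypSpace (n : ℕ) : Set (Lorentz n) := {p | 0 < p.1 ∧ form p p = 1}

/-- The light-like vector `(1, x)`; the points of `S^n` are the light-like lines, i.e. the points at
infinity of `H^{n+1}`. -/
def light {n : ℕ} (x : Sphere n) : Lorentz n := (1, (x : EuclideanSpace ℝ (Fin (n + 1))))

/-- The horoball at the point `p` of `S^n`, of level `t`. -/
def Horoball {n : ℕ} (p : Sphere n) (t : ℝ) : Set (Lorentz n) :=
  {x | x ∈ HypSpace n ∧ form x (light p) < t}

/-- The vector `p + c q`. -/
noncomputable def comb {n : ℕ} (c : ℝ) (p q : Lorentz n) : Lorentz n :=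
  (p.1 + c * q.1, p.2 + c • q.2)

/-- The vector `c p`. -/
noncomputable def scale {n : ℕ} (c : ℝ) (p : Lorentz n) : Lorentz n := (c * p.1, c • p.2)

variable {n : ℕ} {G : Type} [Group G]

/-- `A` is an action by homeomorphisms. -/
def IsAction (A : G → Sphere n → Sphere n) : Prop :=
  (∀ g, Continuous (A g)) ∧ (∀ x, A 1 x = x) ∧ ∀ g h x, A (g * h) x = A g (A h x)

/-- The convergence property: each sequence of elements of `G` which leaves every finite set has a
subsequence which converges to a constant `p`, locally uniformly off a point `q`. -/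
def IsConvergence (A : G → Sphere n → Sphere n) : Prop :=
  ∀ g : ℕ → G, Tendsto g atTop cofinite → ∃ φ : ℕ → ℕ, StrictMono φ ∧ ∃ p q : Sphere n,
    ∀ U ∈ 𝓝 p, ∀ W ∈ 𝓝 q, ∀ᶠ k in atTop, ∀ x, x ∉ W → A (g (φ k)) x ∈ U

/-- All orbits are infinite. -/
def InfiniteOrbits (A : G → Sphere n → Sphere n) : Prop := ∀ x, (Set.range fun g => A g x).Infinite

/-- `(g_k)` is a conical sequence for the point `z`. -/
def IsConicalSeq (A : G → Sphere n → Sphere n) (z : Sphere n) (g : ℕ → G) : Prop :=
  ∃ a b : Sphere n, a ≠ b ∧ Tendsto (fun k => A (g k) z) atTop (𝓝 a) ∧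
    ∀ w, w ≠ z → Tendsto (fun k => A (g k) w) atTop (𝓝 b)

/-- `z` is a conical point. -/
def IsConical (A : G → Sphere n → Sphere n) (z : Sphere n) : Prop := ∃ g : ℕ → G, IsConicalSeq A z g

/-- The stabiliser of `z` acts cocompactly on the complement of `z`. -/
def StabCocompact (A : G → Sphere n → Sphere n) (z : Sphere n) : Prop :=
  ∃ C : Set (Sphere n), IsCompact C ∧ z ∉ C ∧ ∀ w, w ≠ z → ∃ g, A g z = z ∧ A g w ∈ C

/-- The action is geometrically finite: each point is conical or bounded. -/
def IsGeomFinite (A : G → Sphere n → Sphere n) : Prop := ∀ z, IsConical A z ∨ StabCocompact A z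

/-- `φ` is a homeomorphism of the open set `U` onto an open set. -/
def IsChart (U : Set (Sphere n)) (φ : Sphere n → Sphere n) : Prop :=
  IsOpen U ∧ ContinuousOn φ U ∧ Set.InjOn φ U ∧ ∀ W ⊆ U, IsOpen W → IsOpen (φ '' W)

/-- In the chart `φ`, the map `F` changes the absolute cross-ratios
`|a - b| |c - d| / (|a - c| |b - d|)` of points of `V ⊆ U` which it maps to `U` by a factor at most
`1 + ε` (exchange `b` and `c` for the lower bound). -/
def Distorts (U : Set (Sphere n)) (φ F : Sphere n → Sphere n) (V : Set (Sphere n)) (ε : ℝ) : Prop :=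
  ∀ a ∈ V, ∀ b ∈ V, ∀ c ∈ V, ∀ d ∈ V, F a ∈ U → F b ∈ U → F c ∈ U → F d ∈ U →
    chord (φ (F a)) (φ (F b)) * chord (φ (F c)) (φ (F d)) *
      (chord (φ a) (φ c) * chord (φ b) (φ d)) ≤
    (1 + ε) * (chord (φ a) (φ b) * chord (φ c) (φ d) *
      (chord (φ (F a)) (φ (F c)) * chord (φ (F b)) (φ (F d))))

/-- For all `s ∈ S` and `ε > 0` there is a neighbourhood `V ⊆ U` of `z` on which for all large `k`
the maps `g_k` and `s g_k` change cross-ratios in the chart `φ` by a factor at most `1 + ε`. -/
def AsympMoebius (A : G → Sphere n → Sphere n) (S : Set G) (U : Set (Sphere n))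
    (φ : Sphere n → Sphere n) (z : Sphere n) (g : ℕ → G) : Prop :=
  ∀ s ∈ S, ∀ ε : ℝ, 0 < ε → ∃ V ∈ 𝓝 z, V ⊆ U ∧ ∀ᶠ k in atTop,
    Distorts U φ (A (g k)) V ε ∧ Distorts U φ (A (s * g k)) V ε

/-- `ρ` is a linear action of the group on Lorentz space. -/
def IsLinAction (ρ : G → Lorentz n → Lorentz n) : Prop :=
  (∀ g c p q, ρ g (comb c p q) = comb c (ρ g p) (ρ g q)) ∧ (∀ p, ρ 1 p = p) ∧
    ∀ g h p, ρ (g * h) p = ρ g (ρ h p)

/-- `ρ` acts by isometries of hyperbolic space: it preserves the form and the hyperboloid. -/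
def IsIsometric (ρ : G → Lorentz n → Lorentz n) : Prop :=
  ∀ g, (∀ p q, form (ρ g p) (ρ g q) = form p q) ∧ ∀ p ∈ HypSpace n, ρ g p ∈ HypSpace n

/-- `f` conjugates the action `A` to the action of `ρ` on the sphere at infinity. -/
def Conjugates (A : G → Sphere n → Sphere n) (f : Sphere n → Sphere n)
    (ρ : G → Lorentz n → Lorentz n) : Prop :=
  IsHomeomorph f ∧ ∀ g x, ∃ c : ℝ, 0 < c ∧ ρ g (light (f x)) = scale c (light (f (A g x)))

/-- `ρ` acts properly discontinuously on hyperbolic space. -/
def ActsProperly (ρ : G → Lorentz n → Lorentz n) : Prop :=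
  ∀ K ⊆ HypSpace n, IsCompact K → {g | ∃ p ∈ K, ρ g p ∈ K}.Finite

/-- `ρ` acts as a lattice: there is a finite set `P` of points of `S^n`, none of them conical, such
that the elements which preserve all horoballs at `f p`, `p ∈ P`, act cocompactly on `S^n` minus
`p`, and for every `t > 0` each point of hyperbolic space has a translate in a fixed compact set or
in the horoball of level `t` at `f p` for some `p ∈ P`. -/
def IsLattice (A : G → Sphere n → Sphere n) (f : Sphere n → Sphere n)
    (ρ : G → Lorentz n → Lorentz n) : Prop :=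
  ∃ P : Set (Sphere n), P.Finite ∧
    (∀ p ∈ P, ¬ IsConical A p ∧ ∃ C : Set (Sphere n), IsCompact C ∧ p ∉ C ∧
      ∀ w, w ≠ p → ∃ g, ρ g (light (f p)) = light (f p) ∧ A g w ∈ C) ∧
    ∀ t : ℝ, 0 < t → ∃ K ⊆ HypSpace n, IsCompact K ∧ ∀ x ∈ HypSpace n, ∃ g,
      ρ g x ∈ K ∨ ∃ p ∈ P, ρ g x ∈ Horoball (f p) t

theorem result (n : ℕ) (hn : 1 ≤ n) (G : Type) [Group G] (A : G → Sphere n → Sphere n)
    (hA : IsAction A) (hcv : IsConvergence A) (U : Set (Sphere n)) (φ : Sphere n → Sphere n)
    (hφ : IsChart U φ) (S : Set G)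
    (hS : (S = Set.univ ∧ InfiniteOrbits A) ∨ (U = Set.univ ∧ Subgroup.closure S = ⊤))
    (z : Sphere n) (hzU : z ∈ U) (g : ℕ → G) (hg : IsConicalSeq A z g)
    (hz : AsympMoebius A S U φ z g) :
    ∃ (f : Sphere n → Sphere n) (ρ : G → Lorentz n → Lorentz n), (∀ x ∈ U, f x = φ x) ∧
      Conjugates A f ρ ∧ IsLinAction ρ ∧ IsIsometric ρ ∧ ActsProperly ρ ∧
      (IsGeomFinite A → IsLattice A f ρ) := by
  have hfr : Module.finrank ℝ (EuclideanSpace ℝ (Fin (n + 1))) = n + 1 := by simp
  have hdim : 2 ≤ Module.finrank ℝ (EuclideanSpace ℝ (Fin (n + 1))) := by rw [hfr]; omega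
  have hrank : 1 < Module.rank ℝ (EuclideanSpace ℝ (Fin (n + 1))) := by
    rw [← Module.finrank_eq_rank, hfr]
    exact_mod_cast (by omega : 1 < n + 1)
  have hconn := isConnected_sphere hrank (0 : EuclideanSpace ℝ (Fin (n + 1))) zero_le_one
  have hcs : ConnectedSpace (Sphere n) := isConnected_iff_connectedSpace.1 hconn
  have hnt : Nontrivial (Sphere n) := by
    obtain ⟨e⟩ := hcs.toNonempty
    refine ⟨e, -e, fun h => ?_⟩
    have h1 : (e : EuclideanSpace ℝ (Fin (n + 1))) = -e := by
      have := congrArg Subtype.val h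
      simpa using this
    have h2' : (2 : ℝ) • (e : EuclideanSpace ℝ (Fin (n + 1))) = 0 := by
      rw [two_smul]; exact eq_neg_iff_add_eq_zero.1 h1
    have h2 : (e : EuclideanSpace ℝ (Fin (n + 1))) = 0 :=
      (smul_eq_zero.1 h2').resolve_left two_ne_zero
    have h3 := Pool.Agent.TH878.Cn.sp_norm e
    rw [h2, norm_zero] at h3
    exact zero_ne_one h3
  have hperf : PerfectSpace (Sphere n) := inferInstance
  have hAct : Pool.Agent.TH878.Cn.IsAct A := ⟨hA.1, hA.2.1, hA.2.2⟩
  obtain ⟨a, b, hab, hga, hgb⟩ := hg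
  obtain ⟨r, f, hfU, hf, hfh⟩ := Pool.Agent.TH878.Cn.main_chart hdim hAct hcv hφ.1 hzU hga hgb hab
    φ hφ.2.1 hφ.2.2.1 hφ.2.2.2 hS hz
  obtain ⟨lam, L, M⟩ := Pool.Agent.TH878.Cn.mact_of_iso r
  have hcvB : Pool.Agent.TH878.Cn.Conv fun (g : G) (x : Sphere n) => r g • x :=
    Pool.Agent.TH878.Cn.conv_of_conj (A := A) hfh hf hcv
  have hH : ∀ p : Lorentz n, p ∈ HypSpace n ↔
      p ∈ Pool.Agent.TH878.Cn.HH (EuclideanSpace ℝ (Fin (n + 1))) := by
    intro p
    unfold HypSpace form Pool.Agent.TH878.Cn.HH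
    simp only [Set.mem_ofPred_eq, real_inner_self_eq_norm_sq]
    rw [← pow_two]
  have hHs : HypSpace n = Pool.Agent.TH878.Cn.HH (EuclideanSpace ℝ (Fin (n + 1))) :=
    Set.ext hH
  refine ⟨f, fun g p => L g p, hfU, ⟨hfh, fun g x => ?_⟩, ⟨?_, ?_, ?_⟩,
    fun g => ⟨M.L2 g, fun p hp => ?_⟩, ?_, fun hgf => ?_⟩
  · refine ⟨lam g (f x), M.pos g _, ?_⟩
    rw [hf]
    exact M.L1 g (f x)
  · intro g c p q
    have e : ∀ u v : Lorentz n, comb c u v = u + c • v := fun u v => rfl
    simp only [e, map_add, map_smul]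
  · intro p
    simp only [M.Lone]
    rfl
  · intro g h p
    simp only [M.Lmul]
    rfl
  · rw [hHs] at hp ⊢
    exact M.LH g p hp
  · unfold ActsProperly
    rw [hHs]
    exact M.proper hcvB hdim
  · have hgf' : ∀ y, Pool.Agent.TH878.Cn.Conic (fun (g : G) (x : Sphere n) => r g • x) y ∨
        Pool.Agent.TH878.Cn.Bdd (fun (g : G) (x : Sphere n) => r g • x) y := by
      intro y
      obtain ⟨x, rfl⟩ := hfh.surjective y
      exact Pool.Agent.TH878.Cn.conic_of_conj hfh hf (hgf x)
    obtain ⟨h1, h2, h3⟩ := M.lattice hcvB hdim hgf'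
    refine ⟨f ⁻¹' Pool.Agent.TH878.Cn.MAct.Lam lam, h1.preimage hfh.injective.injOn,
      fun p hp => ?_, fun t ht => ?_⟩
    · obtain ⟨h4, C, hC, hpC, hcov⟩ := h2 (f p) hp
      refine ⟨fun hcon => h4 (Pool.Agent.TH878.Cn.conic_conj hfh hf hcon), f ⁻¹' C,
        (hC.isClosed.preimage hfh.continuous).isCompact, hpC, fun w hw => ?_⟩
      obtain ⟨g, hg1, hg2⟩ := hcov (f w) fun h => hw (hfh.injective h)
      refine ⟨g, hg1, ?_⟩
      change f (A g w) ∈ C
      rw [hf]
      exact hg2
    · obtain ⟨K, hK, hKc, hcov⟩ := h3 t ht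
      refine ⟨K, by rw [hHs]; exact hK, hKc, fun x hx => ?_⟩
      rw [hHs] at hx
      obtain ⟨g, hg⟩ := hcov x hx
      refine ⟨g, ?_⟩
      rcases hg with hg | ⟨p, hp, hg⟩
      · exact Or.inl hg
      · obtain ⟨q, rfl⟩ := hfh.surjective p
        refine Or.inr ⟨q, hp, ?_, hg⟩
        rw [hHs]
        exact M.LH g x hx

end Pool.Agent.Results.MP_04c03c_gt.OneConicalPoint
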