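import Pool.Agent.TH38.RK.Basic
import Pool.Agent.TH38.RK.Kak
import Pool.Agent.TH38.RK.Ptol
import Pool.Agent.TH38.RK.Path
import Pool.Agent.TH38.RK.Arc
import Pool.Agent.TH38.RK.Zas
import Pool.Agent.TH38.RK.Tree
import Pool.Agent.TH38.RK.Act
import Pool.Agent.TH38.RK.Bdd3
import Pool.Agent.TH38.RK.Unb3
import Pool.Agent.TH38.RK.Full3
import Pool.Agent.TH38.RK.Main3

/-!
# Residually Kleinian relatively hyperbolic groups

`PSL` is `PSL(2,ℂ)`, `Disc Γ` says that `Γ` is a discrete subgroup, `RelHypLike G` lists the
properties of non-elementary groups hyperbolic relative to virtually abelian subgroups, without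
nontrivial finite normal subgroups, that are used, and `SmallTreeAction2 G` says that `G` acts by
isometries and without a global fixed point on an `ℝ`-tree such that no non-abelian free subgroup
fixes two distinct points.
-/

set_option autoImplicit false

namespace Pool.Agent.Results.MP_04c03c_gt.ResiduallyKleinianRelative

open Pool.Agent.TH38.RK

/-- Let `G ≠ 1` be a finitely generated group such that: the orders of the elements of finite order
are bounded; every element `g` of infinite order lies in a proper subgroup `E` without non-abelian
free subgroups that contains the centraliser of `g` and such that `x ∈ E` whenever `x h x⁻¹ ∈ E` for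
some `h ∈ E` of infinite order; every nontrivial normal subgroup contains an element of infinite
order.  Suppose that every `g ≠ 1` survives in some homomorphism onto a discrete subgroup of
`PSL(2,ℂ)`.  Then `G` is isomorphic to a discrete subgroup of `PSL(2,ℂ)`, or `G` acts by isometries
and without a global fixed point on an `ℝ`-tree such that the pointwise stabilisers of pairs of
distinct points contain no non-abelian free group. -/
theorem result (G : Type) [Group G] (hfg : Group.FG G) (hG : RelHypLike G) (hne : ∃ g : G, g ≠ 1)
    (hres : ∀ g : G, g ≠ 1 → ∃ ρ : G →* PSL, Disc ρ.range ∧ ρ g ≠ 1) :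
    (∃ ρ : G →* PSL, Disc ρ.range ∧ Function.Injective ρ) ∨ SmallTreeAction2 G :=
  main3 basic full3 (bounded3 basic zassenhaus)
    (unbounded3 basic (tree basic ptolemy (path kak)) (action basic) (arc kak) zassenhaus)
    G hfg hG hne hres

end Pool.Agent.Results.MP_04c03c_gt.ResiduallyKleinianRelative
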